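import Pool.Agent.Helper51.AJ.St
import Pool.Agent.Helper51.AJ.Basic

set_option autoImplicit false

namespace Pool.Agent.Helper10.AJ

open Pool.Agent.Helper51.AJ

private theorem cpl_compl {V : Type} {G : SimpleGraph V} {A : Set V} (h : Cpl G A) : Cpl G Aᶜ := by
  intro a ha b hb
  have hb' : b ∈ A := by
    by_contra hc
    exact hb hc
  exact (h b hb' a ha).symm

private theorem exists_fin4 {V : Type} [Finite V] (A : Set V) (h : 4 ≤ A.ncard) :
    ∃ f : Fin 4 → V, Function.Injective f ∧ ∀ i, f i ∈ A := by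
  classical
  have hf : Fintype V := Fintype.ofFinite V
  have h1 : Fintype.card (Fin 4) ≤ Fintype.card A := by
    rw [Fintype.card_fin, ← Nat.card_eq_fintype_card, Nat.card_coe_set_eq]
    exact h
  obtain ⟨e⟩ := Function.Embedding.nonempty_of_card_le h1
  exact ⟨fun i => (e i).1, fun i j hij => e.injective (Subtype.ext hij), fun i => (e i).2⟩

private theorem minor_E2 {V : Type} (G : SimpleGraph V) (A : Set V) (hA : Cpl G A) (f g : Fin 4 → V)
    (hf : Function.Injective f) (hg : Function.Injective g) (hfA : ∀ i, f i ∈ A) (hgA : ∀ i, g i ∉ A) :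
    IsMinor E2 G := by
  have hadj : ∀ i j, G.Adj (f i) (g j) := fun i j => hA _ (hfA i) _ (hgA j)
  have hne : ∀ i j, f i ≠ g j := fun i j h => hgA j (h ▸ hfA i)
  refine ⟨fun x => match x with
    | Sum.inl _ => {f 0, g 0}
    | Sum.inr (Sum.inl i) => {f i.succ}
    | Sum.inr (Sum.inr i) => {g i.succ}, ?_, ?_, ?_⟩
  · rintro (x | x | x)
    · exact con_pair (hadj 0 0)
    · exact con_singleton G _
    · exact con_singleton G _
  · rintro (x | x | x) (y | y | y) hxy
    · exact absurd (congrArg Sum.inl (Subsingleton.elim x y)) hxy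
    · rw [Set.disjoint_singleton_right]
      rintro (h | h)
      · exact Fin.succ_ne_zero y (hf h)
      · exact hne _ _ h
    · rw [Set.disjoint_singleton_right]
      rintro (h | h)
      · exact hne _ _ h.symm
      · exact Fin.succ_ne_zero y (hg h)
    · rw [Set.disjoint_singleton_left]
      rintro (h | h)
      · exact Fin.succ_ne_zero x (hf h)
      · exact hne _ _ h
    · rw [Set.disjoint_singleton]
      intro h
      apply hxy
      rw [Fin.succ_injective _ (hf h)]
    · rw [Set.disjoint_singleton]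
      exact hne _ _
    · rw [Set.disjoint_singleton_left]
      rintro (h | h)
      · exact hne _ _ h.symm
      · exact Fin.succ_ne_zero x (hg h)
    · rw [Set.disjoint_singleton]
      exact (hne _ _).symm
    · rw [Set.disjoint_singleton]
      intro h
      apply hxy
      rw [Fin.succ_injective _ (hg h)]
  · rintro (x | x | x) (y | y | y) h
    · exact absurd (congrArg Sum.inl (Subsingleton.elim x y)) (SimpleGraph.ne_of_adj _ h)
    · exact ⟨g 0, Or.inr rfl, f y.succ, rfl, (hadj _ _).symm⟩
    · exact ⟨f 0, Or.inl rfl, g y.succ, rfl, hadj _ _⟩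
    · exact ⟨f x.succ, rfl, g 0, Or.inr rfl, hadj _ _⟩
    · exfalso
      have h' : (completeBipartiteGraph (Fin 3) (Fin 3)).Adj (Sum.inl x) (Sum.inl y) := h
      simp at h'
    · exact ⟨f x.succ, rfl, g y.succ, rfl, hadj _ _⟩
    · exact ⟨g x.succ, rfl, f 0, Or.inl rfl, (hadj _ _).symm⟩
    · exact ⟨g x.succ, rfl, f y.succ, rfl, (hadj _ _).symm⟩
    · exfalso
      have h' : (completeBipartiteGraph (Fin 3) (Fin 3)).Adj (Sum.inr x) (Sum.inr y) := h
      simp at h'

private theorem main_case (h2 : StFna) (h3 : StAsa) (h4 : StAsb) (h5 : StAsc) (V : Type) [Finite V]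
    (G : SimpleGraph V) (hG : ExMinor G) (A : Set V) (hA : Cpl G A) (hne : A.Nonempty)
    (hle : A.ncard ≤ Aᶜ.ncard) :
    Nonempty (E1 ≃g G) ∨ Nonempty (E2 ≃g G) ∨ Nonempty (E3 ≃g G) ∨ Nonempty (E4 ≃g G) := by
  have hpos : 0 < A.ncard := (Set.ncard_pos (Set.toFinite A)).2 hne
  rcases Nat.lt_or_ge A.ncard 4 with hlt | hge
  · have h123 : A.ncard = 1 ∨ A.ncard = 2 ∨ A.ncard = 3 := by omega
    rcases h123 with h1 | h1 | h1
    · obtain ⟨a, rfl⟩ := Set.ncard_eq_one.1 h1
      rcases h3 V G a hG (fun b hb => hA a rfl b hb) with h | h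
      · exact Or.inl h
      · exact Or.inr (Or.inl h)
    · obtain ⟨a, b, hab, rfl⟩ := Set.ncard_eq_two.1 h1
      by_cases hadj : G.Adj a b
      · rcases h3 V G a hG (fun c hc => by
          by_cases hcb : c = b
          · rw [hcb]; exact hadj
          · exact hA a (Or.inl rfl) c (fun h => h.elim hc hcb)) with h | h
        · exact Or.inl h
        · exact Or.inr (Or.inl h)
      · rcases h4 V G a b hG hab hadj (fun c hc1 hc2 =>
          ⟨hA a (Or.inl rfl) c (fun h => h.elim hc1 hc2),
            hA b (Or.inr rfl) c (fun h => h.elim hc1 hc2)⟩) with h | h | h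
        · exact Or.inl h
        · exact Or.inr (Or.inl h)
        · exact Or.inr (Or.inr (Or.inr h))
    · rcases h5 V G A hG hA h1 (by omega) with h | h | h
      · exact Or.inl h
      · exact Or.inr (Or.inl h)
      · exact Or.inr (Or.inr (Or.inl h))
  · obtain ⟨f, hf, hfA⟩ := exists_fin4 A hge
    obtain ⟨g, hg, hgA⟩ := exists_fin4 Aᶜ (hge.trans hle)
    have hm := minor_E2 G A hA f g hf hg hfA hgA
    by_contra hcon
    push Not at hcon
    exact h2.2.1.2.1 (hG.2 _ E2 hm (fun h => by
      have := hcon.2.1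
      exact not_isEmpty_iff.2 h this))

set_option linter.unusedVariables false in
theorem hASD (h1 : StTrn) (h2 : StFna) (h3 : StAsa) (h4 : StAsb) (h5 : StAsc) : StAsd := by
  intro V _ G hG hc
  unfold SimpleGraph.Preconnected at hc
  push Not at hc
  obtain ⟨x, y, hxy⟩ := hc
  have hA : Cpl G {z | Gᶜ.Reachable x z} := by
    intro a ha b hb
    by_contra hadj
    apply hb
    have hne : a ≠ b := by
      rintro rfl
      exact hb ha
    have h6 : Gᶜ.Adj a b := by
      rw [SimpleGraph.compl_adj]
      exact ⟨hne, hadj⟩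
    exact SimpleGraph.Reachable.trans ha h6.reachable
  rcases le_total ({z | Gᶜ.Reachable x z} : Set V).ncard ({z | Gᶜ.Reachable x z} : Set V)ᶜ.ncard with h | h
  · exact main_case h2 h3 h4 h5 V G hG _ hA ⟨x, SimpleGraph.Reachable.refl x⟩ h
  · refine main_case h2 h3 h4 h5 V G hG _ (cpl_compl hA) ⟨y, hxy⟩ ?_
    rw [compl_compl]
    exact h

end Pool.Agent.Helper10.AJ
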